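import Mathlib
import Pool.Agent.H20Z.CartanMain
import Pool.Agent.H152Z.Cartan.Defs2
import Pool.Agent.H152Z.Cartan.Group2

set_option autoImplicit false

open scoped Manifold ContDiff Topology

namespace Pool.Agent.Results.MP_69200a_ag.ATorusCounterexample

open Pool.Agent.H20Z.Cartan Pool.Agent.H152Z.Cartan2

/-- It is false that, whenever the complex homogeneous space `X = G / H` is not a product of a
compact Riemann surface with a complex manifold and some compact Kähler manifold carries a
holomorphic `G / H`-geometry, there is a closed subgroup `G'` of `G` with an open orbit on `X` and a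
cocompact lattice. -/
theorem result :
    ¬ ∀ (a b n : ℕ)
      (G : Type) [Group G] [TopologicalSpace G] [T2Space G] [SecondCountableTopology G]
      [ConnectedSpace G] [ChartedSpace (Cn a) G] [LieGroup 𝓘(ℂ, Cn a) ω G]
      (H : Type) [Group H] [TopologicalSpace H] [T2Space H] [SecondCountableTopology H]
      [ChartedSpace (Cn b) H] [LieGroup 𝓘(ℂ, Cn b) ω H]
      (X : Type) [TopologicalSpace X] [T2Space X] [SecondCountableTopology X]
      [ChartedSpace (Cn n) X] [IsManifold 𝓘(ℂ, Cn n) ω X] [MulAction G X]
      (ι : H →* G) (x₀ : X)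
      (M : Type) [TopologicalSpace M] [T2Space M] [CompactSpace M] [ConnectedSpace M]
      [ChartedSpace (Cn n) M] [IsManifold 𝓘(ℂ, Cn n) ω M],
      IsModel a b n ι x₀ → ¬ IsCurveProduct n X → IsKaehler n M → HasCartanGeometry a b n ι M →
      ∃ G' : Subgroup G, IsClosed (G' : Set G) ∧ (∃ x : X, IsOpen (MulAction.orbit G' x)) ∧
        ∃ Γ : Subgroup G', DiscreteTopology Γ ∧ CompactSpace (G' ⧸ Γ) := by
  intro h
  obtain ⟨G', -, ⟨x, hx⟩, Γ, hΓ, hc⟩ :=
    h 2 0 2 Aff Triv Aff 1 1 Tor isModel not_product ⟨_, kaehler_flat⟩ hasGeometry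
  exact no_lattice G' (open_orbit G' x hx) Γ hc

end Pool.Agent.Results.MP_69200a_ag.ATorusCounterexample
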